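import Pool.Agent.Helper10.Stmt.Defs

/-!
The curvature tensor of a Kähler metric, and nonpositive holomorphic sectional curvature.
-/

open Complex Set
open scoped Manifold ContDiff ComplexConjugate ComplexOrder Topology

namespace Pool.Agent.Helper10.Stmt

/-- The matrix of the pull back of the Hermitian metric `h` by `ψ`, at the point `x`. -/
noncomputable def pullM (n : ℕ) {X : Type*} [TopologicalSpace X] [ChartedSpace (Fin n → ℂ) X]
    (h : X → Matrix (Fin n) (Fin n) ℂ) (ψ : (Fin n → ℂ) → X) (x : Fin n → ℂ) :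
    Matrix (Fin n) (Fin n) ℂ :=
  Matrix.of fun i j => herm (h (ψ x)) (dvec n ψ x (Pi.single i 1)) (dvec n ψ x (Pi.single j 1))

/-- Twice the derivative `∂/∂z_l`. -/
noncomputable def dz {n : ℕ} (l : Fin n) (f : (Fin n → ℂ) → ℂ) (x : Fin n → ℂ) : ℂ :=
  fderiv ℝ f x (Pi.single l 1) - I * fderiv ℝ f x (Pi.single l I)

/-- Twice the derivative `∂/∂(conj z_l)`. -/
noncomputable def dzb {n : ℕ} (l : Fin n) (f : (Fin n → ℂ) → ℂ) (x : Fin n → ℂ) : ℂ :=
  fderiv ℝ f x (Pi.single l 1) + I * fderiv ℝ f x (Pi.single l I)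

/-- Four times the curvature tensor
`R_ijkl = - ∂_k ∂b_l H_ij + ∑ (∂_k H_ip) (H⁻¹)_pq (∂b_l H_qj)` of the Kähler metric `H` on an open set of
`ℂⁿ`. -/
noncomputable def curv {n : ℕ} (H : (Fin n → ℂ) → Matrix (Fin n) (Fin n) ℂ) (x : Fin n → ℂ)
    (i j k l : Fin n) : ℂ :=
  - dz k (dzb l fun y => H y i j) x +
    ∑ p, ∑ q, dz k (fun y => H y i p) x * (H x)⁻¹ p q * dzb l (fun y => H y q j) x

/-- The Kähler metric `h` has nonpositive holomorphic sectional curvature: `R(v, v, v, v) ≤ 0` for all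
`v`, in every local parametrization. -/
def NonposHSC (n : ℕ) (X : Type*) [TopologicalSpace X] [ChartedSpace (Fin n → ℂ) X]
    (h : X → Matrix (Fin n) (Fin n) ℂ) : Prop :=
  ∀ (V : Set (Fin n → ℂ)) (ψ : (Fin n → ℂ) → X), Par n ψ V → ∀ x ∈ V, ∀ v : Fin n → ℂ,
    (∑ i, ∑ j, ∑ k, ∑ l, curv (pullM n h ψ) x i j k l * v i * conj (v j) * v k * conj (v l)).re ≤ 0

end Pool.Agent.Helper10.Stmt
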