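import Pool.Agent.Helper10.Stmt.Defs
import Pool.Agent.Helper10.SP.Fin1

/-! Conversion between the definitions of `Helper10/Stmt/Defs.lean` and the internal ones. -/

open Complex Set
open scoped Manifold ContDiff ComplexConjugate ComplexOrder Topology

namespace Pool.Agent.Helper10.Stmt

open Pool.Agent

universe u v

section

variable {n : ℕ} {X : Type v} [TopologicalSpace X] [ChartedSpace (Fin n → ℂ) X]

theorem kahler_iff {g : X → Matrix (Fin n) (Fin n) ℂ} :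
    KahlerMetric n X g ↔ Helper16.Abund.KahlerMetric n X g := Iff.rfl

theorem can_iff {v : X → ℝ} : CanMetric n X v ↔ Helper10.SP.CanMetric n X v :=
  ⟨fun h => ⟨h.1, h.2⟩, fun h => ⟨h.pos, h.smooth⟩⟩

theorem corank_iff {v : X → ℝ} :
    SemiposCorankOne n X v ↔ Helper10.SP.SemiposCorankOne n X v := Iff.rfl

theorem inv_iff {g : X → Matrix (Fin n) (Fin n) ℂ} {T : X → X} :
    InvMetric n g T ↔ Helper92.Orb.InvMetric n g T := Iff.rfl

theorem pluri_iff {m : ℕ} {c : X → ℂ} :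
    IsPluriForm n X m c ↔ Helper16.Abund.IsPluriForm n X m c :=
  ⟨fun h V ψ hV hψ => h V ψ ⟨hV, hψ⟩, fun h V ψ hψ => h V ψ hψ.1 hψ.2⟩

theorem semi_iff : CanSemiample n X ↔ Helper16.Abund.CanSemiample n X := by
  constructor <;> rintro ⟨m, hm, h⟩ <;> refine ⟨m, hm, fun x => ?_⟩ <;>
    obtain ⟨c, h1, h2⟩ := h x
  · exact ⟨c, pluri_iff.1 h1, h2⟩
  · exact ⟨c, pluri_iff.2 h1, h2⟩

theorem orb_iff {G : Type u} [Group G] [MulAction G X] :
    OrbSemiample n G X ↔ Helper92.Orb.OrbSemiample n G X := by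
  constructor <;> rintro ⟨m, hm, h⟩ <;> refine ⟨m, hm, fun x => ?_⟩ <;>
    obtain ⟨c, ⟨h1, h3⟩, h2⟩ := h x
  · exact ⟨c, ⟨pluri_iff.1 h1, fun γ _ y => h3 γ y⟩, h2⟩
  · exact ⟨c, ⟨pluri_iff.2 h1, fun γ y => h3 γ (Subgroup.mem_top _) y⟩, h2⟩

end

end Pool.Agent.Helper10.Stmt
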