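import Pool.Agent.Helper10.Stmt.Defs

/-!
Semipositive curvature of constant rank, and Hermitian metrics with nonpositive curvature on the kernel.
-/

open Complex Set
open scoped Manifold ContDiff ComplexConjugate ComplexOrder Topology

namespace Pool.Agent.Helper10.Stmt

/-- `g` is a smooth Hermitian metric on `X` (not necessarily Kähler). -/
def HermitianMetric (n : ℕ) (X : Type*) [TopologicalSpace X] [ChartedSpace (Fin n → ℂ) X]
    (g : X → Matrix (Fin n) (Fin n) ℂ) : Prop :=
  (∀ x, (g x).PosDef) ∧ ∀ (V : Set (Fin n → ℂ)) (ψ : (Fin n → ℂ) → X), HoloOn n ψ V →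
    ∀ u v, ContDiffOn ℝ ∞ (fun z => metricForm n g ψ z u v) V

/-- The curvature of the Hermitian metric of the canonical bundle given by `v` is semipositive, of
rank `n - k` at every point: in every local parametrization the Levi form of the weight is positive
semidefinite and its kernel is `k`-dimensional. -/
def SemiposCorank (n k : ℕ) (X : Type*) [TopologicalSpace X] [ChartedSpace (Fin n → ℂ) X]
    (v : X → ℝ) : Prop :=
  ∀ (V : Set (Fin n → ℂ)) (ψ : (Fin n → ℂ) → X), Par n ψ V → ∀ z ∈ V,
    (∀ e, 0 ≤ lev (lpot n v ψ) z e) ∧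
      ∃ S : Submodule ℂ (Fin n → ℂ), Module.finrank ℂ S = k ∧ ∀ e, lev (lpot n v ψ) z e = 0 ↔ e ∈ S

/-- The square of the length, for the metric `g`, of the vector field which in the parametrization `ψ`
is given by `σ`. -/
noncomputable def sqLength (n : ℕ) {X : Type*} [TopologicalSpace X] [ChartedSpace (Fin n → ℂ) X]
    (g : X → Matrix (Fin n) (Fin n) ℂ) (ψ : (Fin n → ℂ) → X) (σ : (Fin n → ℂ) → Fin n → ℂ)
    (z : Fin n → ℂ) : ℝ :=
  (herm (g (ψ z)) (dvec n ψ z (σ z)) (dvec n ψ z (σ z))).re

/-- The bisectional curvature `R(e, e, s, s)` of the (Chern connection of the) metric `g` is nonpositive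
for all `e`, `s` in the kernel of the curvature of `v`: for every local holomorphic vector field `σ`, at
every point where `σ` is in the kernel, the Levi form of `|σ|²` is nonnegative on the kernel. -/
def KernelBisecNonpos (n : ℕ) (X : Type*) [TopologicalSpace X] [ChartedSpace (Fin n → ℂ) X]
    (g : X → Matrix (Fin n) (Fin n) ℂ) (v : X → ℝ) : Prop :=
  ∀ (V : Set (Fin n → ℂ)) (ψ : (Fin n → ℂ) → X), Par n ψ V → ∀ σ : (Fin n → ℂ) → Fin n → ℂ,
    DifferentiableOn ℂ σ V → ∀ z ∈ V, lev (lpot n v ψ) z (σ z) = 0 →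
      ∀ e, lev (lpot n v ψ) z e = 0 → 0 ≤ lev (sqLength n g ψ σ) z e

/-- The holomorphic sectional curvature `R(s, s, s, s)` of the metric `g` is nonpositive for all `s` in
the kernel of the curvature of `v`: for every local holomorphic vector field `σ`, at every point where
`σ` is in the kernel, the Levi form of `|σ|²` is nonnegative in the direction of `σ`. -/
def KernelHSCNonpos (n : ℕ) (X : Type*) [TopologicalSpace X] [ChartedSpace (Fin n → ℂ) X]
    (g : X → Matrix (Fin n) (Fin n) ℂ) (v : X → ℝ) : Prop :=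
  ∀ (V : Set (Fin n → ℂ)) (ψ : (Fin n → ℂ) → X), Par n ψ V → ∀ σ : (Fin n → ℂ) → Fin n → ℂ,
    DifferentiableOn ℂ σ V → ∀ z ∈ V, lev (lpot n v ψ) z (σ z) = 0 →
      0 ≤ lev (sqLength n g ψ σ) z (σ z)

/-- `g` is a Hermitian metric with nonpositive bisectional curvature on the kernel of the curvature of
`v`, or a Kähler metric with nonpositive holomorphic sectional curvature on this kernel. -/
def KernelNonpos (n : ℕ) (X : Type*) [TopologicalSpace X] [ChartedSpace (Fin n → ℂ) X]
    (g : X → Matrix (Fin n) (Fin n) ℂ) (v : X → ℝ) : Prop :=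
  HermitianMetric n X g ∧ KernelBisecNonpos n X g v ∨
    KahlerMetric n X g ∧ KernelHSCNonpos n X g v

end Pool.Agent.Helper10.Stmt
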