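import Pool.Agent.Helper10.Stmt.Conv
import Pool.Agent.Helper10.Stmt.DefsK
import Pool.Agent.Helper10.RK.Main

/-! Conversion between the definitions of `Helper10/Stmt/DefsK.lean` and the internal ones, and the
theorem RK in the form of the hand-ins. -/

open Complex Set
open scoped Manifold ContDiff ComplexConjugate ComplexOrder Topology

namespace Pool.Agent.Helper10.Stmt

open Pool.Agent

universe u v

section

variable {n : ℕ} {X : Type v} [TopologicalSpace X] [ChartedSpace (Fin n → ℂ) X]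

theorem hermitian_iff {g : X → Matrix (Fin n) (Fin n) ℂ} :
    HermitianMetric n X g ↔ Helper95.RK.HermMetric n X g := Iff.rfl

theorem corankK_iff {k : ℕ} {v : X → ℝ} :
    SemiposCorank n k X v ↔ Helper10.RK.SemiposCorankK n k X v := Iff.rfl

theorem bisec_iff {g : X → Matrix (Fin n) (Fin n) ℂ} {v : X → ℝ} :
    KernelBisecNonpos n X g v ↔ Helper15.RK.GNeg n X g v := Iff.rfl

theorem hsc_iff {g : X → Matrix (Fin n) (Fin n) ℂ} {v : X → ℝ} :
    KernelHSCNonpos n X g v ↔ Helper15.RK.HNeg n X g v := Iff.rfl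

theorem neg_of {g : X → Matrix (Fin n) (Fin n) ℂ} {v : X → ℝ} (h : KernelNonpos n X g v) :
    Helper95.RK.HermMetric n X g ∧ (Helper15.RK.GNeg n X g v ∨
      Helper16.Abund.KahlerMetric n X g ∧ Helper15.RK.HNeg n X g v) := by
  rcases h with h | h
  · exact ⟨h.1, Or.inl h.2⟩
  · exact ⟨⟨h.1.1, fun V ψ hψ => (h.1.2 V ψ hψ).1⟩, Or.inr ⟨h.1, h.2⟩⟩

end

/-- The case of rank `n - 1` in the form of `SemiposCorank n 1`. -/
theorem corankOne_of {n : ℕ} {X : Type v} [TopologicalSpace X] [ChartedSpace (Fin n → ℂ) X]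
    {v : X → ℝ} (h : SemiposCorank n 1 X v) : SemiposCorankOne n X v := by
  intro V ψ hψ z hz
  obtain ⟨h1, S, hS, h2⟩ := h V ψ hψ z hz
  refine ⟨h1, ?_⟩
  obtain ⟨w, hw, hw2⟩ := finrank_eq_one_iff'.1 hS
  refine ⟨w, fun h0 => hw (Subtype.ext h0), fun e => ?_⟩
  rw [h2 e]
  constructor
  · intro he
    obtain ⟨c, hc⟩ := hw2 ⟨e, he⟩
    exact ⟨c, (congrArg Subtype.val hc).symm⟩
  · rintro ⟨c, rfl⟩
    exact S.smul_mem c w.2

theorem orb_semiample {n k : ℕ} (hS : Helper10.SP.S_MAINSP.{u, v}) (hF : Helper15.RK.S_FRONT.{u, v})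
    (hM : Helper10.RK.S_MAINRK.{u, v}) (hk : 0 < k) (hn : k < n) {G : Type u} {M : Type v}
    [Group G] [MulAction G M] [TopologicalSpace M] [T2Space M] [ConnectedSpace M]
    [ChartedSpace (Fin n → ℂ) M] [IsManifold 𝓘(ℂ, Fin n → ℂ) ω M] (hact : ProperCocompact n G M)
    {h : M → Matrix (Fin n) (Fin n) ℂ} (hh : KahlerMetric n M h)
    (hinv : ∀ γ : G, InvMetric n h (fun y : M => γ • y))
    {v : M → ℝ} (hv : CanMetric n M v)
    (hvinv : ∀ (γ : G) (x : M), v (γ • x) * ‖jac n (fun y : M => γ • y) x‖ ^ 2 = v x)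
    (hr : SemiposCorank n k M v)
    (hc : k = 1 ∨ ∃ g : M → Matrix (Fin n) (Fin n) ℂ, KernelNonpos n M g v ∧
      ∀ γ : G, InvMetric n g (fun y : M => γ • y)) : OrbSemiample n G M := by
  rcases hc with rfl | ⟨g, hg, hginv⟩
  · exact orb_iff.2 (Helper10.SP.orb_of_main hS (by omega)
      ⟨hact.1, hact.2.1, hact.2.2.2⟩ hact.2.2.1 (kahler_iff.1 hh) (fun γ => inv_iff.1 (hinv γ))
      (can_iff.1 hv) hvinv (corank_iff.1 (corankOne_of hr)))
  · obtain ⟨h1, h2⟩ := neg_of hg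
    exact orb_iff.2 (Helper10.RK.orb_of_mainrk hF hM hk hn ⟨hact.1, hact.2.1, hact.2.2.2⟩
      hact.2.2.1 (kahler_iff.1 hh) (fun γ => inv_iff.1 (hinv γ)) (can_iff.1 hv) hvinv
      (corankK_iff.1 hr) h1 (fun γ => inv_iff.1 (hginv γ)) h2)

/-- The trivial action on a compact manifold. -/
theorem can_of_orb {n : ℕ} {X : Type v} [TopologicalSpace X] [CompactSpace X]
    [ChartedSpace (Fin n → ℂ) X]
    (H : ∀ (G : Type) [Group G] [MulAction G X], ProperCocompact n G X →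
      (∀ g : X → Matrix (Fin n) (Fin n) ℂ, ∀ γ : G, InvMetric n g (fun y : X => γ • y)) →
      (∀ v : X → ℝ, ∀ (γ : G) (x : X), v (γ • x) * ‖jac n (fun y : X => γ • y) x‖ ^ 2 = v x) →
      OrbSemiample n G X) : CanSemiample n X := by
  let i : MulAction Unit X :=
    { smul := fun _ x => x
      one_smul := fun _ => rfl
      mul_smul := fun _ _ _ => rfl }
  have key : ∀ (G : Type) [Group G] [Finite G] [MulAction G X],
      (∀ γ : G, (fun y : X => γ • y) = id) → OrbSemiample n G X := by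
    intro G _ _ _ hid
    have hsm : ∀ (γ : G) (x : X), γ • x = x := fun γ x => congrFun (hid γ) x
    have hmd : ∀ x : X, mfderiv 𝓘(ℂ, Fin n → ℂ) 𝓘(ℂ, Fin n → ℂ) (id : X → X) x =
        ContinuousLinearMap.id ℂ (TangentSpace 𝓘(ℂ, Fin n → ℂ) x) := fun x => mfderiv_id
    refine H G ⟨fun γ => ?_, fun x => ⟨univ, Filter.univ_mem, Set.toFinite _⟩,
      fun K _ => Set.toFinite _, ⟨univ, isCompact_univ, fun x => ⟨1, mem_univ _⟩⟩⟩ ?_ ?_
    · rw [hid γ]
      exact mdifferentiable_id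
    · intro h γ x u w
      rw [hid γ]
      show herm (h x) (mfderiv 𝓘(ℂ, Fin n → ℂ) 𝓘(ℂ, Fin n → ℂ) (id : X → X) x u)
        (mfderiv 𝓘(ℂ, Fin n → ℂ) 𝓘(ℂ, Fin n → ℂ) (id : X → X) x w) = _
      rw [hmd x]
      rfl
    · intro v γ x
      have : jac n (fun y : X => γ • y) x = 1 := by
        rw [hid γ]
        show ContinuousLinearMap.det (mfderiv 𝓘(ℂ, Fin n → ℂ) 𝓘(ℂ, Fin n → ℂ) (id : X → X) x) = 1
        rw [hmd x]
        exact LinearMap.det_id
      rw [this, hsm γ x]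
      simp
  obtain ⟨r, hr1, hr2⟩ := @key Unit _ _ i fun _ => rfl
  refine ⟨r, hr1, fun x => ?_⟩
  obtain ⟨c, hc1, hc2⟩ := hr2 x
  exact ⟨c, hc1.1, hc2⟩

end Pool.Agent.Helper10.Stmt
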