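import Mathlib

/-!
Complex manifolds modelled on `Fin n → ℂ`: Kähler metrics, Hermitian metrics of the canonical bundle
(volume densities) and their curvature, pluricanonical forms, proper cocompact actions.

Vectors, metrics, densities and pluricanonical forms are given by their coefficients in the preferred
chart `chartAt x` at each point `x`.
-/

open Complex Set
open scoped Manifold ContDiff ComplexConjugate ComplexOrder Topology

namespace Pool.Agent.Helper10.Stmt

section maps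

variable (n : ℕ) {X Y : Type*} [TopologicalSpace X] [ChartedSpace (Fin n → ℂ) X]
  [TopologicalSpace Y] [ChartedSpace (Fin n → ℂ) Y]

/-- The differential of the map `f : X → Y` at `x` applied to the tangent vector `u`. -/
noncomputable def dvec (f : X → Y) (x : X) (u : Fin n → ℂ) : Fin n → ℂ :=
  (mfderiv 𝓘(ℂ, Fin n → ℂ) 𝓘(ℂ, Fin n → ℂ) f x : (Fin n → ℂ) →L[ℂ] (Fin n → ℂ)) u

/-- The complex Jacobian determinant of the map `f : X → Y` at `x`. -/
noncomputable def jac (f : X → Y) (x : X) : ℂ :=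
  ContinuousLinearMap.det
    (mfderiv 𝓘(ℂ, Fin n → ℂ) 𝓘(ℂ, Fin n → ℂ) f x : (Fin n → ℂ) →L[ℂ] (Fin n → ℂ))

/-- `ψ` is a holomorphic map from the open set `V` of `ℂⁿ` to `X`. -/
def HoloOn (ψ : (Fin n → ℂ) → X) (V : Set (Fin n → ℂ)) : Prop :=
  IsOpen V ∧ MDifferentiableOn 𝓘(ℂ, Fin n → ℂ) 𝓘(ℂ, Fin n → ℂ) ψ V

/-- `ψ` is a local parametrization of `X`: holomorphic on the open set `V` with invertible
differential. -/
def Par (ψ : (Fin n → ℂ) → X) (V : Set (Fin n → ℂ)) : Prop :=
  HoloOn n ψ V ∧ ∀ z ∈ V, jac n ψ z ≠ 0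

end maps

/-! ## Metrics -/

/-- The Hermitian pairing `∑ A i j u_i conj(v_j)`. -/
noncomputable def herm {n : ℕ} (A : Matrix (Fin n) (Fin n) ℂ) (u v : Fin n → ℂ) : ℂ :=
  ∑ i, ∑ j, A i j * u i * conj (v j)

/-- The imaginary part of the pull back by `ψ` of the Hermitian metric `g`, at the point `z`. -/
noncomputable def metricForm (n : ℕ) {X : Type*} [TopologicalSpace X] [ChartedSpace (Fin n → ℂ) X]
    (g : X → Matrix (Fin n) (Fin n) ℂ) (ψ : (Fin n → ℂ) → X) (z u v : Fin n → ℂ) : ℝ :=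
  (herm (g (ψ z)) (dvec n ψ z u) (dvec n ψ z v)).im

/-- `g` is a Kähler metric on `X`: it is positive definite, and for every holomorphic map `ψ` from an
open set `V` of `ℂⁿ` to `X` the imaginary part `κ` of the pulled back metric is a smooth closed
differential form, `dκ(u, v, w) = ∂_u κ(v, w) + ∂_v κ(w, u) + ∂_w κ(u, v) = 0`. -/
def KahlerMetric (n : ℕ) (X : Type*) [TopologicalSpace X] [ChartedSpace (Fin n → ℂ) X]
    (g : X → Matrix (Fin n) (Fin n) ℂ) : Prop :=
  (∀ x, (g x).PosDef) ∧ ∀ (V : Set (Fin n → ℂ)) (ψ : (Fin n → ℂ) → X), HoloOn n ψ V →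
    (∀ u v, ContDiffOn ℝ ∞ (fun z => metricForm n g ψ z u v) V) ∧
    ∀ z ∈ V, ∀ u v w, fderiv ℝ (fun z => metricForm n g ψ z v w) z u +
      fderiv ℝ (fun z => metricForm n g ψ z w u) z v +
      fderiv ℝ (fun z => metricForm n g ψ z u v) z w = 0

/-- The Hermitian metric `g` is invariant under the map `T : X → X`. -/
def InvMetric (n : ℕ) {X : Type*} [TopologicalSpace X] [ChartedSpace (Fin n → ℂ) X]
    (g : X → Matrix (Fin n) (Fin n) ℂ) (T : X → X) : Prop :=
  ∀ (x : X) (u v : Fin n → ℂ), herm (g (T x)) (dvec n T x u) (dvec n T x v) = herm (g x) u v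

/-! ## Volume densities, i.e. Hermitian metrics of the canonical bundle -/

/-- The logarithm of the density, with respect to Lebesgue measure, of the volume density `v` in the
parametrization `ψ`: the local weight of the corresponding Hermitian metric of the canonical
bundle. -/
noncomputable def lpot (n : ℕ) {X : Type*} [TopologicalSpace X] [ChartedSpace (Fin n → ℂ) X]
    (v : X → ℝ) (ψ : (Fin n → ℂ) → X) (z : Fin n → ℂ) : ℝ :=
  Real.log (v (ψ z) * ‖jac n ψ z‖ ^ 2)

/-- `v` is a smooth positive volume density, i.e. a smooth Hermitian metric of the canonical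
bundle. -/
def CanMetric (n : ℕ) (X : Type*) [TopologicalSpace X] [ChartedSpace (Fin n → ℂ) X]
    (v : X → ℝ) : Prop :=
  (∀ x, 0 < v x) ∧ ∀ (V : Set (Fin n → ℂ)) (ψ : (Fin n → ℂ) → X), Par n ψ V →
    ContDiffOn ℝ ∞ (lpot n v ψ) V

/-- Four times the Levi form of `φ` at `x` in the direction `e`, i.e. the Laplacian at `0` of
`ζ ↦ φ (x + ζ e)`. -/
noncomputable def lev {n : ℕ} (φ : (Fin n → ℂ) → ℝ) (x e : Fin n → ℂ) : ℝ :=
  fderiv ℝ (fun y => fderiv ℝ φ y e) x e +
    fderiv ℝ (fun y => fderiv ℝ φ y (I • e)) x (I • e)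

/-- The curvature of the Hermitian metric of the canonical bundle given by `v` is semipositive, of
rank `n - 1` at every point: in every local parametrization the Levi form of the weight is positive
semidefinite and its kernel is one-dimensional. -/
def SemiposCorankOne (n : ℕ) (X : Type*) [TopologicalSpace X] [ChartedSpace (Fin n → ℂ) X]
    (v : X → ℝ) : Prop :=
  ∀ (V : Set (Fin n → ℂ)) (ψ : (Fin n → ℂ) → X), Par n ψ V → ∀ z ∈ V,
    (∀ e, 0 ≤ lev (lpot n v ψ) z e) ∧
      ∃ e₀ : Fin n → ℂ, e₀ ≠ 0 ∧ ∀ e, lev (lpot n v ψ) z e = 0 ↔ ∃ c : ℂ, e = c • e₀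

/-! ## Pluricanonical forms -/

/-- `c` is (the coefficient function of) an `m`-canonical form on `X`: for every holomorphic map `ψ`
from an open set `V` of `ℂⁿ` to `X` the pulled back form `c(ψ(z)) (det dψ(z))^m (dz)^m` is
holomorphic on `V`. -/
def IsPluriForm (n : ℕ) (X : Type*) [TopologicalSpace X] [ChartedSpace (Fin n → ℂ) X]
    (m : ℕ) (c : X → ℂ) : Prop :=
  ∀ (V : Set (Fin n → ℂ)) (ψ : (Fin n → ℂ) → X), HoloOn n ψ V →
    DifferentiableOn ℂ (fun z => c (ψ z) * jac n ψ z ^ m) V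

/-- The canonical bundle of `X` is semiample: for some `m ≥ 1` the `m`-canonical forms have no common
zero. -/
def CanSemiample (n : ℕ) (X : Type*) [TopologicalSpace X] [ChartedSpace (Fin n → ℂ) X] : Prop :=
  ∃ m : ℕ, 1 ≤ m ∧ ∀ x : X, ∃ c : X → ℂ, IsPluriForm n X m c ∧ c x ≠ 0

/-! ## Actions -/

/-- The group `G` acts on `M` by holomorphic maps, properly discontinuously (stabilizers are allowed)
and with compact quotient. -/
def ProperCocompact (n : ℕ) (G M : Type*) [Group G] [MulAction G M] [TopologicalSpace M]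
    [ChartedSpace (Fin n → ℂ) M] : Prop :=
  (∀ γ : G, MDifferentiable 𝓘(ℂ, Fin n → ℂ) 𝓘(ℂ, Fin n → ℂ) (fun x : M => γ • x)) ∧
    (∀ x : M, ∃ U ∈ 𝓝 x, {γ : G | ∃ y ∈ U, γ • y ∈ U}.Finite) ∧
    (∀ K : Set M, IsCompact K → {γ : G | ∃ y ∈ K, γ • y ∈ K}.Finite) ∧
    ∃ K : Set M, IsCompact K ∧ ∀ x : M, ∃ γ : G, γ • x ∈ K

/-- For some `r ≥ 1` the `G`-invariant `r`-canonical forms on `M` have no common zero. -/
def OrbSemiample (n : ℕ) (G M : Type*) [Group G] [MulAction G M] [TopologicalSpace M]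
    [ChartedSpace (Fin n → ℂ) M] : Prop :=
  ∃ r : ℕ, 1 ≤ r ∧ ∀ x : M, ∃ c : M → ℂ, (IsPluriForm n M r c ∧
    ∀ (γ : G) (y : M), c (γ • y) * jac n (fun z : M => γ • z) y ^ r = c y) ∧ c x ≠ 0

end Pool.Agent.Helper10.Stmt
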